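import Pool.Agent.K3h30.RS.Stm4
import Pool.Agent.K3h3.RS.Uniq

/-!
# Rubin's conjecture: `1 - σ⁻¹` is invertible on the characters with `χ σ ≠ 1` (RS brick VNR)
-/

set_option autoImplicit false

noncomputable section

namespace Pool.Agent.K3h57.RS

open Pool.Agent.K3h30.RS Pool.Agent.K3h62.RS Pool.Agent.K3h3.RS

theorem t_VNR : S_VNR := by
  intro G _ _ σ
  obtain ⟨x, hx⟩ : ∃ x : MonoidAlgebra ℚ G, x = MonoidAlgebra.single σ⁻¹ (1 : ℚ) := ⟨_, rfl⟩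
  obtain ⟨f, hf⟩ : ∃ f : ℕ, f = orderOf σ := ⟨_, rfl⟩
  have hf0 : 0 < f := by rw [hf]; exact orderOf_pos σ
  have hfQ : (f : ℚ) ≠ 0 := by exact_mod_cast hf0.ne'
  obtain ⟨z, hz⟩ : ∃ z : MonoidAlgebra ℚ G, z = algebraMap ℚ (MonoidAlgebra ℚ G) (f : ℚ)⁻¹ *
    ∑ i ∈ Finset.range f, ∑ j ∈ Finset.range i, x ^ j := ⟨_, rfl⟩
  refine ⟨z, fun c hc => ?_⟩
  rw [← hx]
  have h1 : (1 - x) * z = 1 - algebraMap ℚ (MonoidAlgebra ℚ G) (f : ℚ)⁻¹ *
      ∑ i ∈ Finset.range f, x ^ i := by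
    rw [hz, mul_left_comm, Finset.mul_sum]
    have h2 : ∑ i ∈ Finset.range f, (1 - x) * ∑ j ∈ Finset.range i, x ^ j =
        (f : MonoidAlgebra ℚ G) - ∑ i ∈ Finset.range f, x ^ i := by
      simp_rw [mul_neg_geom_sum]
      rw [Finset.sum_sub_distrib]
      simp
    rw [h2, mul_sub]
    congr 1
    rw [← map_natCast (algebraMap ℚ (MonoidAlgebra ℚ G)) f, ← map_mul, inv_mul_cancel₀ hfQ,
      map_one]
  rw [mul_assoc, h1, mul_sub, mul_one, sub_eq_self]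
  refine eq_zero_of_charValue _ fun χ => ?_
  rw [← cvQ_apply, map_mul, map_mul]
  by_cases hχ : χ σ = 1
  · rw [cvQ_apply χ c, hc χ hχ, zero_mul]
  · have h3 : cvQ χ (∑ i ∈ Finset.range f, x ^ i) = 0 := by
      rw [map_sum]
      simp_rw [map_pow]
      have h4 : cvQ χ x = ((χ σ⁻¹ : ℂˣ) : ℂ) := by
        rw [cvQ_apply, charValue_eq, hx, toR_single, cvHom_single]
        simp
      rw [h4]
      have h5 : (((χ σ⁻¹ : ℂˣ) : ℂ)) ^ f = 1 := by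
        rw [← Units.val_pow_eq_pow_val, ← map_pow, inv_pow, hf, pow_orderOf_eq_one, inv_one,
          map_one, Units.val_one]
      have h6 : (((χ σ⁻¹ : ℂˣ) : ℂ)) ≠ 1 := by
        intro h
        apply hχ
        have h7 : χ σ⁻¹ = 1 := Units.val_eq_one.1 h
        rwa [map_inv, inv_eq_one] at h7
      have h8 := mul_neg_geom_sum ((χ σ⁻¹ : ℂˣ) : ℂ) f
      rw [h5, sub_self] at h8
      exact (mul_eq_zero.1 h8).resolve_left (sub_ne_zero.2 (Ne.symm h6))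
    rw [h3, mul_zero, mul_zero]

end Pool.Agent.K3h57.RS
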